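import Pool.Agent.H65.BO.Targets

/-!
Row CAT of the board borf_modules: the main dichotomy.
-/

set_option autoImplicit false

namespace Pool.Agent.H65.BO.CAT

open Set Filter Topology Pool.Agent.H65.BO MeasureTheory

theorem lx_cns {a b : C} (x : Bool) (h : lx a b) : lx (cns x a) (cns x b) := by
  obtain ⟨n, h1, h2, h3⟩ := h
  refine ⟨n + 1, fun i hi => ?_, h2, h3⟩
  cases i with
  | zero => rfl
  | succ i => exact h1 i (by omega)

theorem lx_not {a b : C} (h : lx a b) : lx (fun n => !b n) (fun n => !a n) := by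
  obtain ⟨n, h1, h2, h3⟩ := h
  refine ⟨n, fun i hi => ?_, ?_, ?_⟩
  · show (!b i) = !a i
    rw [h1 i hi]
  · show (!b n) = false
    rw [h3]; rfl
  · show (!a n) = true
    rw [h2]; rfl

theorem lx_total {a b : C} (h : a ≠ b) : lx a b ∨ lx b a := by
  have h1 : ∃ n, a n ≠ b n := by
    by_contra hcon
    push Not at hcon
    exact h (funext hcon)
  classical
  have h2 : ∀ i, i < Nat.find h1 → a i = b i := by
    intro i hi
    by_contra hne
    exact Nat.find_min h1 hi hne
  have h3 := Nat.find_spec h1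
  cases ha : a (Nat.find h1) with
  | false =>
    cases hb : b (Nat.find h1) with
    | false => exact absurd (ha.trans hb.symm) h3
    | true => exact Or.inl ⟨_, h2, ha, hb⟩
  | true =>
    cases hb : b (Nat.find h1) with
    | false => exact Or.inr ⟨_, fun i hi => (h2 i hi).symm, hb, ha⟩
    | true => exact absurd (ha.trans hb.symm) h3

/-- The flip. -/
theorem flip {J X : Type} [TopologicalSpace X] (y : C → J → X) (O : C → J → Set X)
    (hO : ∀ a j, IsOpen (O a j)) (hy : ∀ a j, y a j ∈ O a j)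
    (h : ∀ a b, lx a b → ∃ j, y a j ∉ O b j) : Disc (Bool × J) X := by
  let m : Bool → C → C := fun x a => if x then cns true (fun n => !a n) else cns false a
  refine ⟨fun a j => y (m j.1 a) j.2, fun a j => O (m j.1 a) j.2, fun a j => hO _ _,
    fun a j => hy _ _, fun a b hab => ?_⟩
  rcases lx_total hab with h1 | h1
  · obtain ⟨j, hj⟩ := h (m false a) (m false b) (lx_cns false h1)
    exact ⟨(false, j), hj⟩
  · obtain ⟨j, hj⟩ := h (m true a) (m true b) (lx_cns true (lx_not h1))
    exact ⟨(true, j), hj⟩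

theorem Disc.of_surj {J J' X : Type} [TopologicalSpace X] (σ : J' → J)
    (hσ : Function.Surjective σ) (h : Disc J X) : Disc J' X := by
  obtain ⟨y, O, h1, h2, h3⟩ := h
  refine ⟨fun a j => y a (σ j), fun a j => O a (σ j), fun a j => h1 _ _, fun a j => h2 _ _,
    fun a b hab => ?_⟩
  obtain ⟨j, hj⟩ := h3 a b hab
  obtain ⟨j', rfl⟩ := hσ j
  exact ⟨j', hj⟩

theorem disc4_of_pair {X : Type} [TopologicalSpace X] (h : Disc (Bool × Bool) X) :
    Disc (Fin 4) X := by
  refine Disc.of_surj ![(false, false), (false, true), (true, false), (true, true)] ?_ h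
  rintro ⟨a, b⟩
  cases a <;> cases b
  · exact ⟨0, rfl⟩
  · exact ⟨1, rfl⟩
  · exact ⟨2, rfl⟩
  · exact ⟨3, rfl⟩

theorem disc4_of_unit {X : Type} [TopologicalSpace X] (h : Disc (Bool × Unit) X) :
    Disc (Fin 4) X := by
  refine Disc.of_surj ![(false, ()), (false, ()), (true, ()), (true, ())] ?_ h
  rintro ⟨a, b⟩
  cases a
  · exact ⟨0, rfl⟩
  · exact ⟨2, rfl⟩

/-- The Baire property. -/
theorem bp {Y : Type} [TopologicalSpace Y] [MeasurableSpace Y] [BorelSpace Y] {T W : Set Y}
    (hT : MeasurableSet T) (hW : IsOpen W) (h : {p | p ∈ W → p ∉ T} ∉ residual Y) :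
    ∃ V ⊆ W, IsOpen V ∧ V.Nonempty ∧ {p | p ∈ V → p ∈ T} ∈ residual Y := by
  obtain ⟨V, hV, hVT⟩ := hT.residualEq_isOpen
  have h1 : {p | p ∈ T ↔ p ∈ V} ∈ residual Y := by
    refine hVT.mono fun p hp => ?_
    exact Eq.to_iff hp
  refine ⟨V ∩ W, inter_subset_right, hV.inter hW, ?_, ?_⟩
  · by_contra hne
    rw [not_nonempty_iff_eq_empty] at hne
    refine h (mem_of_superset h1 ?_)
    intro p hp hpW hpT
    have h2 : p ∈ V ∩ W := ⟨hp.1 hpT, hpW⟩
    rw [hne] at h2
    exact h2
  · refine mem_of_superset h1 ?_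
    intro p hp hpV
    exact hp.2 hpV.1

theorem app_append (r l : List Bool) : ∀ t : C, app (r ++ l) t = app l (app r t) := by
  induction r with
  | nil => intro t; rfl
  | cons x r ih =>
    intro t
    rw [List.cons_append, app, ih, app]

theorem pf_CAT (hAPP : T_APP) (hDSQ : T_DSQ) (hTRF : T_TRF) (hG0 : T_G0) (hFUS : T_FUS) :
    T_CAT := by
  classical
  intro X _ Z _ _ _ _ x f hf hfx he hX
  -- the graph
  let K : Set (Z × Z) := {q | f q.2 (x q.1) ≤ 1 / 3 ∨ f q.1 (x q.2) ≤ 1 / 3}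
  have hKm : MeasurableSet K := by
    have h1 : MeasurableSet {q : Z × Z | f q.2 (x q.1) ≤ 1 / 3} :=
      measurableSet_le he measurable_const
    have h2 : MeasurableSet {q : Z × Z | f q.1 (x q.2) ≤ 1 / 3} :=
      measurableSet_le (he.comp measurable_swap) measurable_const
    exact h1.union h2
  rcases isEmpty_or_nonempty Z with hZ | hZ
  · exact ⟨fun _ => ∅, by ext z; exact (hZ.false z).elim, fun n z => (hZ.false z).elim⟩
  have hKa := hKm.analyticSet
  rw [AnalyticSet] at hKa
  rcases hKa with hK0 | ⟨g, hg, hgK⟩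
  · refine ⟨fun _ => univ, iUnion_const _, fun n z _ w _ => ?_⟩
    by_contra hcon
    have h1 : (z, w) ∈ K := Or.inl (not_lt.1 hcon)
    rw [hK0] at h1
    exact h1
  obtain ⟨p, hp, hps⟩ := PolishSpace.exists_nat_nat_continuous_surjective Z
  obtain ⟨s, hs, hsd⟩ := hDSQ
  rcases hG0 s hs Z p g hp hps hg with ⟨A, hA1, hA2⟩ | ⟨φ, hφ, hφg⟩
  · refine ⟨A, hA1, fun n z hz w hw => ?_⟩
    by_contra hcon
    have h1 : (z, w) ∈ K := Or.inl (not_lt.1 hcon)
    rw [← hgK] at h1
    exact hA2 n z hz w hw h1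
  exfalso
  -- the pulled back function
  let E : C × C → ℝ := fun q => f (φ q.2) (x (φ q.1))
  have hE : Measurable E := by
    have h1 : Measurable fun q : C × C => (φ q.1, φ q.2) :=
      (hφ.measurable.comp measurable_fst).prodMk (hφ.measurable.comp measurable_snd)
    exact he.comp h1
  obtain ⟨hA1, hA2, -, -, hA5⟩ := hAPP
  -- step 1
  have step1 : ∀ U ⊆ (univ : Set C), IsOpen U → U.Nonempty → ∃ B₁ ⊆ U, ∃ B₂ ⊆ U, IsOpen B₁ ∧
      IsOpen B₂ ∧ B₁.Nonempty ∧ B₂.Nonempty ∧
      {q : C × C | q.1 ∈ B₁ → q.2 ∈ B₂ → q ∈ {q | E q ≤ 1 / 2}} ∈ residual (C × C) := by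
    intro U _ hU hUn
    by_contra hcon
    obtain ⟨b, hb⟩ := hUn
    obtain ⟨n, hn⟩ := hA5 U hU b hb
    obtain ⟨m, r, hm⟩ := hsd (pre b n)
    have hsub : ∀ (σ : Bool) (t : C), app (σ :: s m) t ∈ U := by
      intro σ t
      refine hn ⟨app r (cns σ t), ?_⟩
      rw [app, hm, app_append]
    -- the types
    let A : Bool → Set C := fun σ => {t | E (app (σ :: s m) t, app ((!σ) :: s m) t) ≤ 1 / 3}
    have hAcov : ∀ t, t ∈ A false ∨ t ∈ A true := by
      intro t
      have h1 := hφg m t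
      rw [hgK] at h1
      exact h1
    have hAm : ∀ σ, MeasurableSet (A σ) := by
      intro σ
      refine measurableSet_le (hE.comp ?_) measurable_const
      exact (hA2 _).1.measurable.prodMk (hA2 _).1.measurable
    obtain ⟨σ, V, hV, hVn, hVA⟩ : ∃ (σ : Bool) (V : Set C), IsOpen V ∧ V.Nonempty ∧
        {t | t ∈ V → t ∈ A σ} ∈ residual C := by
      by_cases h : {t | t ∈ (univ : Set C) → t ∉ A false} ∈ residual C
      · refine ⟨true, univ, isOpen_univ, univ_nonempty, mem_of_superset h ?_⟩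
        intro t ht _
        exact (hAcov t).resolve_left (ht (mem_univ _))
      · obtain ⟨V, -, h1, h2, h3⟩ := bp (hAm false) isOpen_univ h
        exact ⟨false, V, h1, h2, h3⟩
    let T : Set (C × C) := {q | ¬ (E (app (σ :: s m) q.1, app ((!σ) :: s m) q.2) < 1 / 2 ∧
      1 / 2 < E (app ((!σ) :: s m) q.1, app ((!σ) :: s m) q.2))}
    have hTm : MeasurableSet T := by
      refine MeasurableSet.compl ?_
      refine (measurableSet_lt (hE.comp ?_) measurable_const).inter
        (measurableSet_lt measurable_const (hE.comp ?_))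
      · exact ((hA2 _).1.measurable.comp measurable_fst).prodMk
          ((hA2 _).1.measurable.comp measurable_snd)
      · exact ((hA2 _).1.measurable.comp measurable_fst).prodMk
          ((hA2 _).1.measurable.comp measurable_snd)
    obtain ⟨e, he1, he2⟩ := hFUS T V {t | t ∈ V → t ∈ A σ} hV hVn hVA (by
      intro B hBV hB hBn
      have h1 : {q : C × C | q ∈ B ×ˢ B → q ∉ T} ∉ residual (C × C) := by
        intro hres
        refine hcon ⟨app (σ :: s m) '' B, ?_, app ((!σ) :: s m) '' B, ?_, (hA2 _).2.1 _ hB,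
          (hA2 _).2.1 _ hB, hBn.image _, hBn.image _, ?_⟩
        · rintro _ ⟨t, -, rfl⟩
          exact hsub _ t
        · rintro _ ⟨t, -, rfl⟩
          exact hsub _ t
        · refine mem_of_superset (hTRF (σ :: s m) ((!σ) :: s m) _ hres) ?_
          rintro ⟨q₁, q₂⟩ hq ⟨t, ht, h2⟩ ⟨t', ht', h3⟩
          simp only at h2 h3
          subst h2
          subst h3
          have h4 := hq t t' rfl ⟨ht, ht'⟩
          have h5 : E (app (σ :: s m) t, app ((!σ) :: s m) t') < 1 / 2 ∧
              1 / 2 < E (app ((!σ) :: s m) t, app ((!σ) :: s m) t') := by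
            by_contra h6
            exact h4 h6
          exact h5.1.le
      obtain ⟨W, hWB, hW, ⟨q, hq⟩, hWT⟩ := bp hTm (hB.prod hB) h1
      obtain ⟨B₁, B₂, hB₁, hB₂, hq1, hq2, hsubW⟩ := isOpen_prod_iff.1 hW q.1 q.2 hq
      have h2 : B₁ ×ˢ B₂ ⊆ B ×ˢ B := hsubW.trans hWB
      refine ⟨B₁, ?_, B₂, ?_, hB₁, hB₂, ⟨_, hq1⟩, ⟨_, hq2⟩, ?_⟩
      · intro t ht
        exact (h2 (mk_mem_prod ht hq2)).1
      · intro t ht
        exact (h2 (mk_mem_prod hq1 ht)).2
      · refine mem_of_superset hWT ?_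
        intro q' hq' h3 h4
        exact hq' (hsubW ⟨h3, h4⟩))
    refine hX (disc4_of_pair (flip
      (fun a (j : Bool) => if j then x (φ (app ((!σ) :: s m) (e a))) else
        x (φ (app (σ :: s m) (e a))))
      (fun a (j : Bool) => if j then {u | 1 / 2 < f (φ (app ((!σ) :: s m) (e a))) u} else
        {u | f (φ (app ((!σ) :: s m) (e a))) u < 1 / 2}) ?_ ?_ ?_))
    · intro a j
      cases j with
      | false => exact isOpen_lt (hf _) continuous_const
      | true => exact isOpen_lt continuous_const (hf _)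
    · intro a j
      cases j with
      | false =>
        have h1 : E (app (σ :: s m) (e a), app ((!σ) :: s m) (e a)) ≤ 1 / 3 :=
          (he1 a).2 (he1 a).1
        show f (φ (app ((!σ) :: s m) (e a))) (x (φ (app (σ :: s m) (e a)))) < 1 / 2
        have h2 : f (φ (app ((!σ) :: s m) (e a))) (x (φ (app (σ :: s m) (e a)))) ≤ 1 / 3 := h1
        linarith
      | true =>
        show 1 / 2 < f (φ (app ((!σ) :: s m) (e a))) (x (φ (app ((!σ) :: s m) (e a))))
        rw [hfx]
        norm_num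
    · intro a b hab
      have h1 := he2 a b hab
      by_contra hcon2
      push Not at hcon2
      exact h1 ⟨hcon2 false, hcon2 true⟩
  -- step 2
  obtain ⟨e, -, he2⟩ := hFUS {q | E q ≤ 1 / 2} univ univ isOpen_univ univ_nonempty
    (Filter.univ_mem) step1
  refine hX (disc4_of_unit (flip (fun a (_ : Unit) => x (φ (e a)))
    (fun a (_ : Unit) => {u | 1 / 2 < f (φ (e a)) u}) (fun a _ => isOpen_lt continuous_const (hf _))
    (fun a _ => ?_) fun a b hab => ⟨(), ?_⟩))
  · show 1 / 2 < f (φ (e a)) (x (φ (e a)))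
    rw [hfx]
    norm_num
  · have h1 : f (φ (e b)) (x (φ (e a))) ≤ 1 / 2 := he2 a b hab
    exact not_lt.2 h1

end Pool.Agent.H65.BO.CAT
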