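import Pool.Agent.H65.BO.Targets
import Pool.Agent.H66.CP.Examples

/-!
Borel families of functions: definitions used in the statement and the assembly.
-/

set_option autoImplicit false

namespace Pool.Agent.H65.BO

open Set Filter Topology MeasureTheory Cardinal Pool.Agent.H60.CP Pool.Agent.H66.CP

/-- `X` is homeomorphic to a subspace `{h(p, ·) : p ∈ P}` of the product space `ℝ ^ F`, where `P`
and `F` are Polish spaces and `h` is a Borel function on `P × F`. -/
def BorelFamily (X : Type) [TopologicalSpace X] : Prop :=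
  ∃ (P F : Type) (_ : TopologicalSpace P) (_ : PolishSpace P) (_ : TopologicalSpace F)
    (_ : PolishSpace F) (h : P × F → ℝ), @Measurable (P × F) ℝ (borel (P × F)) (borel ℝ) h ∧
    ∃ j : X → F → ℝ, IsEmbedding j ∧ range j = range (fun (p : P) (q : F) => h (p, q))

/-- A discrete family gives a discrete subspace of cardinality continuum. -/
theorem discrete_of_disc {X : Type} [TopologicalSpace X] (h : Disc (Fin 4) X) :
    ∃ D : Set (Fin 4 → X), DiscreteTopology D ∧ #D = 𝔠 := by
  obtain ⟨y, O, hO, hy, hd⟩ := h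
  have hinj : Function.Injective y := by
    intro a b hab
    by_contra hne
    obtain ⟨j, hj⟩ := hd a b hne
    rw [hab] at hj
    exact hj (hy b j)
  refine ⟨range y, ?_, ?_⟩
  · rw [discreteTopology_subtype_iff']
    rintro _ ⟨a, rfl⟩
    refine ⟨univ.pi (O a), isOpen_set_pi finite_univ fun j _ => hO a j, ?_⟩
    ext z
    simp only [mem_inter_iff, Set.mem_pi, mem_range, mem_singleton_iff]
    constructor
    · rintro ⟨h1, b, rfl⟩
      by_contra hne
      have hba : b ≠ a := fun h => hne (by rw [h])
      obtain ⟨j, hj⟩ := hd b a hba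
      exact hj (h1 j (mem_univ j))
    · rintro rfl
      exact ⟨fun j _ => hy a j, a, rfl⟩
  · rw [mk_range_eq y hinj]
    simp [C]

/-- If `C_p(X)` is hereditarily separable then there is no discrete family. -/
theorem not_disc {X : Type} [TopologicalSpace X] [T35Space X] (hX : CpHS X) :
    ¬ Disc (Fin 4) X := by
  rintro ⟨y, O, hO, hy, hd⟩
  have h5 : #C = 𝔠 := by simp [C]
  obtain ⟨D, hDc, hD⟩ := sel_box hX (fun _ : C => ()) y O hO hy
  have h1 : ∀ a, a ∈ D := by
    intro a
    obtain ⟨d, hdD, -, hj⟩ := hD a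
    by_cases had : a = d
    · rw [had]; exact hdD
    · obtain ⟨j, hj'⟩ := hd a d had
      exact absurd (hj j) hj'
  have h2 : (univ : Set C).Countable := hDc.mono fun a _ => h1 a
  have h3 : Countable C := countable_univ_iff.1 h2
  have h4 : #C ≤ ℵ₀ := mk_le_aleph0_iff.2 h3
  rw [h5] at h4
  exact absurd h4 (not_le.2 aleph0_lt_continuum)

/-- Spaces with a countable network. -/
theorem hss_of_network {X : Type} [TopologicalSpace X] [T35Space X] (hX : CpHS X)
    (hN : HasCountableNetwork X) : CpHSS X := by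
  obtain ⟨N, hN⟩ := hN
  refine main hX le_rfl pgt_aleph0 (T := ∅) (by simp) ⟨N, fun _ _ => univ, ?_, ?_, ?_⟩
  · intro i x
    exact isOpen_univ
  · intro i x _
    exact mem_univ _
  · intro O hO x hx _
    obtain ⟨n, h1, h2⟩ := hN O hO x hx
    exact ⟨n, h1, fun y _ _ z hz => h2 hz.2⟩

/-- The dichotomy for Borel families. -/
theorem dichotomy (hNET : T_NET) {X : Type} [TopologicalSpace X] (hB : BorelFamily X)
    (hD : ¬ Disc (Fin 4) X) : HasCountableNetwork X := by
  classical
  obtain ⟨P, F, tP, pP, tF, pF, h, hh, j, hj, hr⟩ := hB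
  let mP : MeasurableSpace P := borel P
  have bP : BorelSpace P := ⟨rfl⟩
  let mF : MeasurableSpace F := borel F
  have bF : BorelSpace F := ⟨rfl⟩
  have hx : ∀ p : P, ∃ y : X, j y = fun q => h (p, q) := by
    intro p
    have h1 : (fun q => h (p, q)) ∈ range j := by
      rw [hr]
      exact ⟨p, rfl⟩
    exact h1
  choose x hx using hx
  have hxs : Function.Surjective x := by
    intro y
    have h1 : j y ∈ range (fun (p : P) (q : F) => h (p, q)) := by
      rw [← hr]
      exact ⟨y, rfl⟩
    obtain ⟨p, hp⟩ := h1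
    refine ⟨p, hj.injective ?_⟩
    rw [hx, ← hp]
  refine hNET X P F x (fun q y => j y q) hxs (fun q => (continuous_apply q).comp hj.continuous)
    ?_ ?_ hD
  · intro O hO y hy
    obtain ⟨W, hW, rfl⟩ := hj.isOpen_iff.1 hO
    obtain ⟨I, u, hu, hsub⟩ := isOpen_pi_iff.1 hW (j y) hy
    have h1 : ∀ᶠ ε in 𝓝[>] (0 : ℝ), ∀ a ∈ I, Metric.ball (j y a) ε ⊆ u a := by
      rw [eventually_all_finset]
      intro a ha
      obtain ⟨ε, hε, hball⟩ := Metric.isOpen_iff.1 (hu a ha).1 _ (hu a ha).2
      filter_upwards [Ioo_mem_nhdsGT hε] with δ hδ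
      exact (Metric.ball_subset_ball hδ.2.le).trans hball
    obtain ⟨ε, h2, h3⟩ := (h1.and self_mem_nhdsWithin).exists
    refine ⟨I, ε, h3, fun z hz => hsub ?_⟩
    intro a ha
    refine h2 a ha ?_
    rw [Metric.mem_ball, Real.dist_eq]
    exact hz a ha
  · have h1 : (fun p : P × F => j (x p.1) p.2) = h := by
      funext p
      rw [hx]
    rw [h1]
    have h2 : (Prod.instMeasurableSpace : MeasurableSpace (P × F)) = borel (P × F) :=
      BorelSpace.measurable_eq
    have h3 : @Measurable (P × F) ℝ Prod.instMeasurableSpace (borel ℝ) h := by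
      rw [h2]
      exact hh
    exact h3

end Pool.Agent.H65.BO
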