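import Pool.Agent.H65.BO.Targets

/-!
Row G0 of the board borf_modules: the dichotomy of Kechris, Solecki and Todorcevic for directed
graphs and arbitrary colourings, without derivatives.
-/

set_option autoImplicit false

namespace Pool.Agent.H65.BO

open Set Filter Topology

theorem pre_length (b : C) : ∀ n, (pre b n).length = n
  | 0 => rfl
  | n + 1 => by rw [pre, List.length_cons, pre_length b n]

theorem pre_congr {b b' : C} : ∀ {n : ℕ}, (∀ i, i < n → b i = b' i) → pre b n = pre b' n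
  | 0, _ => rfl
  | n + 1, h => by
    rw [pre, pre, h n (Nat.lt_succ_self n), pre_congr fun i hi => h i (Nat.lt_succ_of_lt hi)]

theorem pre_cns (x : Bool) (t : C) : ∀ i, pre (cns x t) (i + 1) = pre t i ++ [x]
  | 0 => rfl
  | i + 1 => by
    rw [pre, pre_cns x t i, pre]
    rfl

theorem pre_app (l : List Bool) : ∀ (t : C) (i : ℕ), pre (app l t) (l.length + i) = pre t i ++ l := by
  induction l with
  | nil =>
    intro t i
    simp [app]
  | cons x l ih =>
    intro t i
    rw [app, List.length_cons, show l.length + 1 + i = l.length + (i + 1) by ring, ih, pre_cns,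
      List.append_assoc]
    rfl

/-- Configurations. -/
abbrev Cf : Type := (List Bool → ℕ → ℕ) × (ℕ → List Bool → ℕ → ℕ)

/-- The two halves of a configuration. -/
def hf (x : Bool) (γ : Cf) : Cf := (fun l => γ.1 (x :: l), fun k t => γ.2 k (x :: t))

section

variable {Z : Type} (s : ℕ → List Bool) (p : (ℕ → ℕ) → Z) (g : (ℕ → ℕ) → Z × Z)

/-- Configurations of level `n`. -/
def IsConf (n : ℕ) (γ : Cf) : Prop := ∀ (k : ℕ) (t : List Bool), k + 1 + t.length = n →
  g (γ.2 k t) = (p (γ.1 (t ++ false :: s k)), p (γ.1 (t ++ true :: s k)))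

/-- The complement is a countable union of independent sets. -/
def CoJ (Y : Set Z) : Prop := ∃ A : ℕ → Set Z,
  (∀ n, ∀ z ∈ A n, ∀ w ∈ A n, (z, w) ∉ range g) ∧ Yᶜ ⊆ ⋃ n, A n

/-- Positive sets of configurations. -/
def Pos (n : ℕ) (P : Set Cf) : Prop := ∀ Y : Set Z, CoJ g Y →
  ∃ γ ∈ P, IsConf s p g n γ ∧ ∀ l : List Bool, l.length = n → p (γ.1 l) ∈ Y

variable {s p g}

theorem coJ_iInter {K : Type} [Countable K] [Nonempty K] {Y : K → Set Z} (h : ∀ c, CoJ g (Y c)) :
    CoJ g (⋂ c, Y c) := by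
  obtain ⟨f, hf⟩ := exists_surjective_nat K
  choose A hA1 hA2 using h
  refine ⟨fun n => A (f n.unpair.1) n.unpair.2, fun n => hA1 _ _, ?_⟩
  intro z hz
  rw [mem_compl_iff, mem_iInter] at hz
  push Not at hz
  obtain ⟨c, hc⟩ := hz
  obtain ⟨m, rfl⟩ := hf c
  obtain ⟨n, hn⟩ := mem_iUnion.1 (hA2 (f m) hc)
  refine mem_iUnion.2 ⟨Nat.pair m n, ?_⟩
  simpa using hn

theorem coJ_diff {Y A : Set Z} (hY : CoJ g Y) (hA : ∀ z ∈ A, ∀ w ∈ A, (z, w) ∉ range g) :
    CoJ g (Y \ A) := by
  obtain ⟨B, hB1, hB2⟩ := hY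
  refine ⟨fun n => Nat.casesOn n A B, ?_, ?_⟩
  · intro n
    cases n with
    | zero => exact hA
    | succ n => exact hB1 n
  · intro z hz
    by_cases h : z ∈ Y
    · refine mem_iUnion.2 ⟨0, ?_⟩
      by_contra hcon
      exact hz ⟨h, hcon⟩
    · obtain ⟨n, hn⟩ := mem_iUnion.1 (hB2 h)
      exact mem_iUnion.2 ⟨n + 1, hn⟩

theorem pos_piece {K : Type} [Countable K] (code : Cf → K) {n : ℕ} {P : Set Cf}
    (hP : Pos s p g n P) : ∃ c, Pos s p g n {γ | γ ∈ P ∧ code γ = c} := by
  by_contra hcon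
  push Not at hcon
  have h1 : ∀ c, ∃ Y : Set Z, CoJ g Y ∧ ∀ γ, γ ∈ P → code γ = c → IsConf s p g n γ →
      ¬ ∀ l : List Bool, l.length = n → p (γ.1 l) ∈ Y := by
    intro c
    have h2 := hcon c
    unfold Pos at h2
    push Not at h2
    obtain ⟨Y, hY, h3⟩ := h2
    refine ⟨Y, hY, fun γ hγ hc hconf hall => ?_⟩
    obtain ⟨l, hl, hl2⟩ := h3 γ ⟨hγ, hc⟩ hconf
    exact hl2 (hall l hl)
  choose Y hY1 hY2 using h1
  have : Nonempty K := ⟨code (fun _ _ => 0, fun _ _ _ => 0)⟩
  obtain ⟨γ, hγ, hconf, hall⟩ := hP _ (coJ_iInter hY1)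
  exact hY2 (code γ) γ hγ rfl hconf fun l hl => mem_iInter.1 (hall l hl) _

theorem pos_star (hs : ∀ n, (s n).length = n) {n : ℕ} {P : Set Cf} (hP : Pos s p g n P) :
    Pos s p g (n + 1) {γ | hf false γ ∈ P ∧ hf true γ ∈ P} := by
  intro Y hY
  by_contra hcon
  push Not at hcon
  let A : Set Z := {z | ∃ γ ∈ P, IsConf s p g n γ ∧
    (∀ l : List Bool, l.length = n → p (γ.1 l) ∈ Y) ∧ z = p (γ.1 (s n))}
  have hA : ∀ z ∈ A, ∀ w ∈ A, (z, w) ∉ range g := by
    rintro z ⟨γ₀, h1, h2, h3, rfl⟩ w ⟨γ₁, h1', h2', h3', rfl⟩ ⟨c, hc⟩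
    let γ : Cf := (fun l => match l with
      | [] => fun _ => 0
      | false :: l => γ₀.1 l
      | true :: l => γ₁.1 l, fun k t => match t with
      | [] => c
      | false :: t => γ₀.2 k t
      | true :: t => γ₁.2 k t)
    have e0 : hf false γ = γ₀ := rfl
    have e1 : hf true γ = γ₁ := rfl
    have hconf : IsConf s p g (n + 1) γ := by
      intro k t hkt
      cases t with
      | nil =>
        have hk : k = n := by simpa using hkt
        subst hk
        exact hc
      | cons x t =>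
        rw [List.length_cons] at hkt
        cases x with
        | false => exact h2 k t (by omega)
        | true => exact h2' k t (by omega)
    obtain ⟨l, hl, hl2⟩ := hcon γ ⟨by rw [e0]; exact h1, by rw [e1]; exact h1'⟩ hconf
    cases l with
    | nil => simp at hl
    | cons x l =>
      rw [List.length_cons] at hl
      cases x with
      | false => exact hl2 (h3 l (by omega))
      | true => exact hl2 (h3' l (by omega))
  obtain ⟨γ, hγ, hconf, hall⟩ := hP _ (coJ_diff hY hA)
  exact (hall (s n) (hs n)).2 ⟨γ, hγ, hconf, fun l hl => (hall l hl).1, rfl⟩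

end

/-- Codes of configurations of level `n`. -/
abbrev Kn (n : ℕ) : Type := ({l : List Bool | l.length = n} → Fin n → ℕ) ×
  ({t : List Bool | t.length < n} → Fin n → ℕ)

theorem Kn_countable (n : ℕ) : Countable (Kn n) := by
  have := (List.finite_length_eq Bool n).to_subtype
  have := (List.finite_length_lt Bool n).to_subtype
  infer_instance

def code (n : ℕ) (γ : Cf) : Kn n :=
  (fun l j => γ.1 l.1 j, fun t j => γ.2 (n - 1 - t.1.length) t.1 j)

theorem pf_G0 : T_G0 := by
  intro s hs Z _ _ p g hp hps hg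
  by_cases hA : ∃ A : ℕ → Set Z, (⋃ n, A n) = univ ∧
      ∀ n, ∀ z ∈ A n, ∀ w ∈ A n, (z, w) ∉ range g
  · exact Or.inl hA
  right
  have h0 : Pos s p g 0 univ := by
    rintro Y ⟨A, hA1, hA2⟩
    have hY : Y.Nonempty := by
      by_contra hY
      rw [not_nonempty_iff_eq_empty] at hY
      refine hA ⟨A, ?_, hA1⟩
      rw [hY, compl_empty] at hA2
      exact univ_subset_iff.1 hA2
    obtain ⟨y, hy⟩ := hY
    obtain ⟨c, rfl⟩ := hps y
    exact ⟨(fun _ => c, fun _ _ => c), mem_univ _, fun k t h => by omega, fun l _ => hy⟩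
  -- the sequence of positive sets
  have hstep : ∀ (n : ℕ) (P : Set Cf), Pos s p g n P → ∃ P' : Set Cf, Pos s p g (n + 1) P' ∧
      (∀ γ ∈ P', hf false γ ∈ P ∧ hf true γ ∈ P) ∧
      ∀ γ ∈ P', ∀ γ' ∈ P', code (n + 1) γ = code (n + 1) γ' := by
    intro n P hP
    have := Kn_countable (n + 1)
    obtain ⟨c, hc⟩ := pos_piece (code (n + 1)) (pos_star hs hP)
    exact ⟨_, hc, fun γ hγ => hγ.1, fun γ hγ γ' hγ' => hγ.2.trans hγ'.2.symm⟩
  choose! nx hnx1 hnx2 hnx3 using hstep
  let P : ℕ → Set Cf := fun n => Nat.rec univ (fun n P => nx n P) n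
  have hP : ∀ n, Pos s p g n (P n) := by
    intro n
    induction n with
    | zero => exact h0
    | succ n ih => exact hnx1 n _ ih
  have hPs : ∀ n, ∀ γ ∈ P (n + 1), ∀ x, hf x γ ∈ P n := by
    intro n γ hγ x
    have h1 := hnx2 n (P n) (hP n) γ hγ
    cases x with
    | false => exact h1.1
    | true => exact h1.2
  have hPc : ∀ n, ∀ γ ∈ P (n + 1), ∀ γ' ∈ P (n + 1), code (n + 1) γ = code (n + 1) γ' :=
    fun n => hnx3 n (P n) (hP n)
  have hne : ∀ n, ∃ γ ∈ P n, IsConf s p g n γ := by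
    intro n
    obtain ⟨γ, h1, h2, -⟩ := hP n univ ⟨fun _ => ∅, fun n z hz => absurd hz (notMem_empty z), by
      simp⟩
    exact ⟨γ, h1, h2⟩
  choose γ hγ hγc using hne
  -- the limits
  let U : C → ℕ → ℕ := fun b j => (γ (j + 1)).1 (pre b (j + 1)) j
  let V : ℕ → C → ℕ → ℕ := fun k b j => (γ (k + 1 + j)).2 k (pre b j) j
  have hU : ∀ (b : C) (j i : ℕ), ∀ δ ∈ P (j + 1 + i), δ.1 (pre b (j + 1 + i)) j = U b j := by
    intro b j i
    induction i with
    | zero =>
      intro δ hδ
      have h1 := hPc j δ hδ _ (hγ (j + 1))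
      have h2 := congrFun (congrFun (Prod.ext_iff.1 h1).1 ⟨pre b (j + 1), pre_length b _⟩)
        ⟨j, Nat.lt_succ_self j⟩
      exact h2
    | succ i ih =>
      intro δ hδ
      exact ih _ (hPs (j + 1 + i) δ hδ (b (j + 1 + i)))
  have hV : ∀ (k : ℕ) (b : C) (j i : ℕ), ∀ δ ∈ P (k + 1 + j + i),
      δ.2 k (pre b (j + i)) j = V k b j := by
    intro k b j i
    induction i with
    | zero =>
      intro δ hδ
      have e : k + 1 + j = (k + j) + 1 := by ring
      have hδ' : δ ∈ P ((k + j) + 1) := by rw [← e]; exact hδ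
      have hγ' : γ (k + 1 + j) ∈ P ((k + j) + 1) := by rw [← e]; exact hγ (k + 1 + j)
      have h1 := hPc (k + j) δ hδ' _ hγ'
      have h2 := congrFun (congrFun (Prod.ext_iff.1 h1).2 ⟨pre b j, by
        show (pre b j).length < k + j + 1
        rw [pre_length]
        omega⟩) ⟨j, by omega⟩
      have h3 : k + j + 1 - 1 - (pre b j).length = k := by
        rw [pre_length]
        omega
      have h4 : δ.2 (k + j + 1 - 1 - (pre b j).length) (pre b j) j =
          (γ (k + 1 + j)).2 (k + j + 1 - 1 - (pre b j).length) (pre b j) j := h2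
      rw [h3] at h4
      exact h4
    | succ i ih =>
      intro δ hδ
      exact ih _ (hPs (k + 1 + j + i) δ hδ (b (j + i)))
  have hUc : Continuous U := by
    rw [continuous_pi_iff]
    intro j
    let r : C → Fin (j + 1) → Bool := fun b i => b i
    let ex : (Fin (j + 1) → Bool) → C := fun w i => if h : i < j + 1 then w ⟨i, h⟩ else false
    have hr : Continuous r := continuous_pi fun i => continuous_apply _
    have h1 : (fun b : C => U b j) = (fun w => (γ (j + 1)).1 (pre (ex w) (j + 1)) j) ∘ r := by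
      funext b
      have h2 : pre (ex (r b)) (j + 1) = pre b (j + 1) := by
        refine pre_congr fun i hi => ?_
        simp only [ex, r, hi, dif_pos]
      simp only [Function.comp_apply, h2, U]
    rw [h1]
    exact continuous_of_discreteTopology.comp hr
  refine ⟨fun b => p (U b), hp.comp hUc, fun k t => ⟨V k t, ?_⟩⟩
  -- the edge as a limit
  have hlimV : Tendsto (fun i => (γ (k + 1 + i)).2 k (pre t i)) atTop (𝓝 (V k t)) := by
    rw [tendsto_pi_nhds]
    intro j
    refine tendsto_const_nhds.congr' ?_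
    filter_upwards [eventually_ge_atTop j] with i hi
    obtain ⟨d, rfl⟩ := Nat.exists_eq_add_of_le hi
    have h1 := hV k t j d (γ (k + 1 + (j + d))) (by
      rw [show k + 1 + j + d = k + 1 + (j + d) by ring]
      exact hγ _)
    exact h1.symm
  have hlimU : ∀ b : C, Tendsto (fun i => (γ (k + 1 + i)).1 (pre b (k + 1 + i))) atTop
      (𝓝 (U b)) := by
    intro b
    rw [tendsto_pi_nhds]
    intro j
    refine tendsto_const_nhds.congr' ?_
    filter_upwards [eventually_ge_atTop (j + 1)] with i hi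
    obtain ⟨d, hd⟩ := Nat.exists_eq_add_of_le (show j + 1 ≤ k + 1 + i by omega)
    have h1 := hU b j d (γ (k + 1 + i)) (by rw [← hd]; exact hγ _)
    rw [← hd] at h1
    exact h1.symm
  have h1 := (hg.tendsto (V k t)).comp hlimV
  have h2 := ((hp.tendsto _).comp (hlimU (app (false :: s k) t))).prodMk_nhds
    ((hp.tendsto _).comp (hlimU (app (true :: s k) t)))
  have h3 : (g ∘ fun i => (γ (k + 1 + i)).2 k (pre t i)) =
      fun i => ((p ∘ fun i => (γ (k + 1 + i)).1 (pre (app (false :: s k) t) (k + 1 + i))) i,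
        (p ∘ fun i => (γ (k + 1 + i)).1 (pre (app (true :: s k) t) (k + 1 + i))) i) := by
    funext i
    have h4 := hγc (k + 1 + i) k (pre t i) (by rw [pre_length])
    simp only [Function.comp_apply]
    rw [h4]
    have h5 : ∀ x : Bool, pre (app (x :: s k) t) (k + 1 + i) = pre t i ++ x :: s k := by
      intro x
      have h6 := pre_app (x :: s k) t i
      rwa [List.length_cons, hs] at h6
    rw [h5, h5]
  rw [h3] at h1
  exact tendsto_nhds_unique h1 h2

end Pool.Agent.H65.BO
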