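import Pool.Agent.H65.BO.Targets

/-!
Row NET of the board `borf_modules` (`MP_f4fb69_gt`): a countable network.
-/

set_option autoImplicit false

namespace Pool.Agent.H65.BO

open Set Filter Topology MeasureTheory

theorem pf_NET (hCAT : T_CAT) : T_NET := by
  intro X _ P F _ _ _ _ _ _ _ _ x f hx hf hbase hmeas hD
  have key : ∀ k m : ℕ, ∃ A : ℕ → Set (P × (Fin k → F)), (⋃ n, A n) = univ ∧
      ∀ n, ∀ z ∈ A n, ∀ w ∈ A n,
        (m : ℝ) * ∑ i, |f (w.2 i) (x z.1) - f (w.2 i) (x w.1)| < 2 / 3 := by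
    intro k m
    obtain ⟨A, hA, hA'⟩ := hCAT X (P × (Fin k → F)) (fun z => x z.1)
      (fun z y => 1 - (m : ℝ) * ∑ i, |f (z.2 i) y - f (z.2 i) (x z.1)|)
      (fun z => by
        refine continuous_const.sub (continuous_const.mul ?_)
        refine continuous_finsetSum _ fun i _ => ?_
        exact ((hf (z.2 i)).sub continuous_const).abs)
      (fun z => by simp)
      (by
        have h1 : ∀ i : Fin k, Measurable
            (fun p : (P × (Fin k → F)) × (P × (Fin k → F)) => f (p.2.2 i) (x p.1.1)) := by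
          intro i
          exact hmeas.comp (measurable_fst.fst.prodMk
            ((measurable_pi_apply i).comp measurable_snd.snd))
        have h2 : ∀ i : Fin k, Measurable
            (fun p : (P × (Fin k → F)) × (P × (Fin k → F)) => f (p.2.2 i) (x p.2.1)) := by
          intro i
          exact hmeas.comp (measurable_snd.fst.prodMk
            ((measurable_pi_apply i).comp measurable_snd.snd))
        refine measurable_const.sub (measurable_const.mul ?_)
        refine Finset.measurable_sum _ fun i _ => ?_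
        exact ((h1 i).sub (h2 i)).abs) hD
    refine ⟨A, hA, fun n z hz w hw => ?_⟩
    have := hA' n z hz w hw
    linarith
  choose A hA hA' using key
  obtain ⟨g, hg⟩ := exists_surjective_nat (ℕ × ℕ × ℕ)
  let N : ℕ × ℕ × ℕ → Set X := fun t => (fun z : P × (Fin t.1 → F) => x z.1) '' (A t.1 t.2.1 t.2.2)
  refine ⟨fun j => N (g j), ?_⟩
  intro O hO y hy
  obtain ⟨s, ε, hε, hs⟩ := hbase O hO y hy
  obtain ⟨p, rfl⟩ := hx y
  obtain ⟨m, hm⟩ := exists_nat_gt (1 / ε)
  have hm0 : (0 : ℝ) < m := lt_trans (by positivity) hm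
  let q : Fin s.card → F := fun i => (s.equivFin.symm i : F)
  have h1 : (p, q) ∈ ⋃ n, A s.card m n := by rw [hA]; trivial
  obtain ⟨n, hn⟩ := mem_iUnion.1 h1
  obtain ⟨j, hj⟩ := hg (s.card, m, n)
  refine ⟨j, ?_⟩
  have hN : N (g j) = (fun z : P × (Fin s.card → F) => x z.1) '' (A s.card m n) := by rw [hj]
  change x p ∈ N (g j) ∧ N (g j) ⊆ O
  rw [hN]
  refine ⟨⟨(p, q), hn, rfl⟩, ?_⟩
  rintro _ ⟨z, hz, rfl⟩
  refine hs _ fun a ha => ?_
  have h2 := hA' s.card m n z hz (p, q) hn
  have h3 : |f (q (s.equivFin ⟨a, ha⟩)) (x z.1) - f (q (s.equivFin ⟨a, ha⟩)) (x p)| ≤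
      ∑ i, |f (q i) (x z.1) - f (q i) (x p)| :=
    Finset.single_le_sum (f := fun i => |f (q i) (x z.1) - f (q i) (x p)|)
      (fun i _ => abs_nonneg _) (Finset.mem_univ _)
  have h4 : q (s.equivFin ⟨a, ha⟩) = a := by simp [q]
  rw [h4] at h3
  have h5 : (m : ℝ) * |f a (x z.1) - f a (x p)| < 1 := by
    have := mul_le_mul_of_nonneg_left h3 hm0.le
    linarith
  have h6 : 1 < (m : ℝ) * ε := by
    rw [div_lt_iff₀ hε] at hm
    linarith
  exact lt_of_mul_lt_mul_left (h5.trans h6) hm0.le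

end Pool.Agent.H65.BO
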