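import Mathlib

/-!
# `MP_f4fb69_gt`: Borel families of functions. Definitions and targets of the board `borf_modules`
-/

set_option autoImplicit false

namespace Pool.Agent.H65.BO

open Set Filter Topology

/-- The Cantor space. -/
abbrev C : Type := ℕ → Bool

/-- The sequence `x, t 0, t 1, …`. -/
def cns (x : Bool) (t : C) : C := fun n => Nat.casesOn n x t

/-- The sequence which starts with the finite sequence `l` and continues with `t`; the list `l` is
written backwards (its head is the last term of the finite sequence). -/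
def app : List Bool → C → C
  | [], t => t
  | x :: l, t => app l (cns x t)

/-- The first `n` terms of `b`, written backwards. -/
def pre (b : C) : ℕ → List Bool
  | 0 => []
  | n + 1 => b n :: pre b n

/-- Lexicographic order. -/
def lx (a b : C) : Prop := ∃ n, (∀ i, i < n → a i = b i) ∧ a n = false ∧ b n = true

/-- There is a family, indexed by the Cantor space, of points of `X ^ J` with open boxes around them
such that no box contains another point of the family. -/
def Disc (J X : Type) [TopologicalSpace X] : Prop :=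
  ∃ (y : C → J → X) (O : C → J → Set X), (∀ a j, IsOpen (O a j)) ∧ (∀ a j, y a j ∈ O a j) ∧
    ∀ a b, a ≠ b → ∃ j, y a j ∉ O b j

/-! ## Targets -/

/-- Finite and infinite sequences. -/
def T_APP : Prop :=
  (∀ (l : List Bool) (t : C) (i : ℕ), pre (app l t) (l.length + i) = pre t i ++ l) ∧
  (∀ l : List Bool, Continuous (app l) ∧ IsOpenMap (app l) ∧ Function.Injective (app l)) ∧
  (∀ l : List Bool, range (app l) = {b | pre b l.length = l}) ∧
  (∀ l : List Bool, IsClopen (range (app l))) ∧
  ∀ U : Set C, IsOpen U → ∀ b ∈ U, ∃ n, range (app (pre b n)) ⊆ U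

/-- A sequence of finite sequences, one of each length, which is dense. -/
def T_DSQ : Prop := ∃ s : ℕ → List Bool, (∀ n, (s n).length = n) ∧ ∀ l, ∃ n r, s n = r ++ l

/-- Comeager sets and open embeddings. -/
def T_TRF : Prop := ∀ (l l' : List Bool) (S : Set (C × C)), S ∈ residual (C × C) →
  {p : C × C | ∀ t t', p = (app l t, app l' t') → (t, t') ∈ S} ∈ residual (C × C)

/-- The dichotomy of Kechris, Solecki and Todorcevic (directed graphs, arbitrary colours). -/
def T_G0 : Prop := ∀ s : ℕ → List Bool, (∀ n, (s n).length = n) →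
  ∀ (Z : Type) [TopologicalSpace Z] [T2Space Z] (p : (ℕ → ℕ) → Z) (g : (ℕ → ℕ) → Z × Z),
  Continuous p → Function.Surjective p → Continuous g →
  (∃ A : ℕ → Set Z, (⋃ n, A n) = univ ∧ ∀ n, ∀ z ∈ A n, ∀ w ∈ A n, (z, w) ∉ range g) ∨
  ∃ φ : C → Z, Continuous φ ∧
    ∀ n t, (φ (app (false :: s n) t), φ (app (true :: s n) t)) ∈ range g

/-- Fusion: a relation which is comeager in small rectangles near the diagonal contains the order
relation of a copy of the Cantor space. -/
def T_FUS : Prop := ∀ (T : Set (C × C)) (U G : Set C), IsOpen U → U.Nonempty → G ∈ residual C →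
  (∀ B ⊆ U, IsOpen B → B.Nonempty → ∃ B₁ ⊆ B, ∃ B₂ ⊆ B, IsOpen B₁ ∧ IsOpen B₂ ∧ B₁.Nonempty ∧
    B₂.Nonempty ∧ {p : C × C | p.1 ∈ B₁ → p.2 ∈ B₂ → p ∈ T} ∈ residual (C × C)) →
  ∃ e : C → C, (∀ a, e a ∈ U ∧ e a ∈ G) ∧ ∀ a b, lx a b → (e a, e b) ∈ T

/-- The main dichotomy. -/
def T_CAT : Prop := ∀ (X : Type) [TopologicalSpace X] (Z : Type) [TopologicalSpace Z]
  [PolishSpace Z] [MeasurableSpace Z] [BorelSpace Z] (x : Z → X) (f : Z → X → ℝ),
  (∀ z, Continuous (f z)) → (∀ z, f z (x z) = 1) →
  Measurable (fun p : Z × Z => f p.2 (x p.1)) → ¬ Disc (Fin 4) X →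
  ∃ A : ℕ → Set Z, (⋃ n, A n) = univ ∧ ∀ n, ∀ z ∈ A n, ∀ w ∈ A n, 1 / 3 < f w (x z)

/-- Borel families of continuous functions which generate the topology. -/
def T_NET : Prop := ∀ (X : Type) [TopologicalSpace X] (P F : Type)
  [TopologicalSpace P] [PolishSpace P] [MeasurableSpace P] [BorelSpace P]
  [TopologicalSpace F] [PolishSpace F] [MeasurableSpace F] [BorelSpace F]
  (x : P → X) (f : F → X → ℝ), Function.Surjective x → (∀ q, Continuous (f q)) →
  (∀ O : Set X, IsOpen O → ∀ y ∈ O, ∃ (s : Finset F) (ε : ℝ), 0 < ε ∧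
    ∀ z, (∀ q ∈ s, |f q z - f q y| < ε) → z ∈ O) →
  Measurable (fun p : P × F => f p.2 (x p.1)) → ¬ Disc (Fin 4) X →
  ∃ N : ℕ → Set X, ∀ O : Set X, IsOpen O → ∀ y ∈ O, ∃ n, y ∈ N n ∧ N n ⊆ O

end Pool.Agent.H65.BO
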